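import Pool.Agent.Lib_helper45.REll.Final

/-!
# MP_f95f3f_co: polynomiality of the regular elliptic factorization counts

For all positive integers `n`, `k` there is one polynomial `f` with rational coefficients with
`g_{k,(n)}(q) = f(q)` for every prime power `q ≡ 1 mod n`.

The proof is self-contained: a Hopf algebra argument (Green, Zelevinsky) identifies the
irreducible characters of `GL_n(F_q)` which do not vanish on the regular elliptic elements
together with their degrees, Frobenius' formula gives the count, and an arithmetic argument
shows that all gcds of the formula are polynomial in `q` when `q ≡ 1 mod n`.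
-/

open Polynomial

namespace Pool.Agent.Results.MP_f95f3f_co.Polynomiality

/-- An element of `GL_n(F)` is regular elliptic if its characteristic polynomial is irreducible. -/
def IsRegularElliptic {n : ℕ} {F : Type} [Field F] (g : GL (Fin n) F) : Prop :=
  Irreducible (g : Matrix (Fin n) (Fin n) F).charpoly

/-- `g_{k,(n)}`: the number of `k`-tuples of regular elliptic elements of `GL_n(F)` whose product
`t_1 t_2 ⋯ t_k` is regular elliptic. -/
noncomputable def ellCount (n k : ℕ) (F : Type) [Field F] : ℕ :=
  Nat.card {t : Fin k → GL (Fin n) F //
    (∀ i, IsRegularElliptic (t i)) ∧ IsRegularElliptic (List.ofFn t).prod}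

/-- For all positive `n` and `k` there is a polynomial `f` over `ℚ` such that
`g_{k,(n)}(q) = f(q)` for every prime power `q ≡ 1 mod n`. -/
theorem result : ∀ n k : ℕ, 0 < n → 0 < k → ∃ f : ℚ[X],
    ∀ q : ℕ, IsPrimePow q → q ≡ 1 [MOD n] →
      ∀ (F : Type) [Field F] [Finite F], Nat.card F = q →
        (ellCount n k F : ℚ) = f.eval (q : ℚ) := by
  intro n k hn hk
  obtain ⟨f, hf⟩ := Pool.Agent.REll.main n k hn hk
  refine ⟨f, ?_⟩
  intro q _ hq F _ _ hF
  subst hF
  exact hf F hq

end Pool.Agent.Results.MP_f95f3f_co.Polynomiality
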